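import Pool.Agent.X280.BP.GaussFam

/-!
# The normal law of the original products of Birch and Swinnerton-Dyer in families

For an integral Weierstrass equation `E` let `P(y) = ∏_{p ≤ y, p ∤ 2Δ} N_p / p`, where `N_p` is the number
of the points modulo `p` with the point at infinity; `1 / P(y)` is the partial product of length `y` of the
Euler product of `L(E, 1)`, and the growth of `P(y)` as a power of `log y` led Birch and Swinnerton-Dyer to
their conjecture.

The theorem says how `P(y)` fluctuates in three families, with zero, one and two marked rational points.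
Let `κ = 1/2, 3/2, 5/2` and let a member of the family be chosen at random, with integral parameters of
absolute values at most `H`.  As `y → ∞` and `log H / log y → ∞` the random variable
`(log P(y) - κ log log y) / √(log log y)` is asymptotically standard normal.  In particular the median of
`P(y)` is `(log y)^{κ + o(1)}`, and the fluctuations have the size `exp(√(log log y))`, the same one for
all the three families; the marked points change the centre and not the variance.

Proof.  `log P(y)` is `κ log log y + O(1)` minus a sum over `p ≤ y` of functions of the parameters modulo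
`p` with mean zero, bounded by `O(1/√p)`, and with variance `1/p + O(p^{-3/2})`.  The first `2m` moments of
this sum over the box are close to the moments for independent variables, and a bound for the moments of
order `2m` of a bounded independent system makes the Taylor polynomial of the characteristic function of
degree `2m - 1` precise; the characteristic function of the independent system is a product, which is
computed with the mean values of `a_p` and `a_p²` in the three families.  Lévy's continuity theorem gives
the result.
-/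

set_option autoImplicit false

namespace Pool.Agent.Results.MP_8b7eba_nt.GaussianLawOfProducts

open Finset

/-- `N_p`: the number of the points of `y² + a₁ x y + a₃ y = x³ + a₂ x² + a₄ x + a₆` modulo `p`, with the
point at infinity. -/
noncomputable def numPoints (E : WeierstrassCurve ℤ) (p : ℕ) : ℕ :=
  Nat.card {q : ZMod p × ZMod p // q.2 ^ 2 + (E.a₁ : ZMod p) * q.1 * q.2 + (E.a₃ : ZMod p) * q.2 =
    q.1 ^ 3 + (E.a₂ : ZMod p) * q.1 ^ 2 + (E.a₄ : ZMod p) * q.1 + (E.a₆ : ZMod p)} + 1

/-- `p` is a prime that does not divide `2 Δ`. -/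
def Good (E : WeierstrassCurve ℤ) (p : ℕ) : Prop := p.Prime ∧ ¬ (p : ℤ) ∣ 2 * E.Δ

open Classical in
/-- `P(y)`: the product of `N_p / p` over the primes `p ≤ y` which do not divide `2 Δ`. -/
noncomputable def product (E : WeierstrassCurve ℤ) (y : ℕ) : ℝ :=
  ∏ p ∈ (range (y + 1)).filter (Good E), ((numPoints E p : ℝ) / p)

/-- `y² = x³ + a x + b`, the parameters are `a, b`. -/
def noPoint (c : Fin 2 → ℤ) : WeierstrassCurve ℤ := ⟨0, 0, 0, c 0, c 1⟩

/-- `y² + a x y + b y = x³ + c x² + d x`, all integral equations with the point `(0, 0)`; the parameters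
are `a, c, b, d`. -/
def onePoint (c : Fin 4 → ℤ) : WeierstrassCurve ℤ := ⟨c 0, c 1, c 2, c 3, 0⟩

/-- `y² + (a x + b) y = x (x - 1) (x + c) = x³ + (c - 1) x² - c x` with the points `(0, 0)` and `(1, 0)`;
the parameters are `a, b, c`. -/
def twoPoints (c : Fin 3 → ℤ) : WeierstrassCurve ℤ := ⟨c 0, c 2 - 1, c 1, -c 2, 0⟩

/-- **The normal law** with the centre `κ log log y`: for all `u` and `ε > 0` there are `k` and `y₀` such
that for all `y ≥ y₀` and `H ≥ y ^ k`, the proportion of the integral parameters with absolute values at
most `H` for which `log P(y) ≤ κ log log y + u √(log log y)` differs by at most `ε` from the probability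
that a standard normal variable is at most `u`. -/
def NormalLaw {n : ℕ} (E : (Fin n → ℤ) → WeierstrassCurve ℤ) (κ : ℝ) : Prop :=
  ∀ u ε : ℝ, 0 < ε → ∃ k y₀ : ℕ, ∀ y H : ℕ, y₀ ≤ y → y ^ k ≤ H →
    |({c : Fin n → ℤ | (∀ i, |c i| ≤ H) ∧ Real.log (product (E c) y) ≤
      κ * Real.log (Real.log y) + u * √(Real.log (Real.log y))}.ncard : ℝ) / (2 * H + 1 : ℝ) ^ n -
      (ProbabilityTheory.gaussianReal 0 1).real (Set.Iic u)| ≤ ε

/-- **The normal law of the products of Birch and Swinnerton-Dyer in families with zero, one and two
marked points.** -/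
theorem result :
    NormalLaw noPoint (1 / 2) ∧ NormalLaw onePoint (3 / 2) ∧ NormalLaw twoPoints (5 / 2) := by
  refine ⟨fun u ε hε => ?_, fun u ε hε => ?_, fun u ε hε => ?_⟩
  · obtain ⟨k, y₀, hk⟩ := Pool.Agent.X280.BP.gauss_of (W := noPoint)
      (V := fun p (c : Fin 2 → ZMod p) => Pool.Agent.X280.BP.V0 c)
      ⟨fun c p => by
        unfold noPoint Pool.Agent.X280.BP.V0 Pool.Agent.Y722.HS.red WeierstrassCurve.map
        simp⟩ Pool.Agent.X280.BP.dat0 u hε
    refine ⟨k, y₀, fun y H hy hH => ?_⟩
    have h := hk y H hy hH
    rw [Fintype.card_fin, show (0 : ℝ) + 1 / 2 = 1 / 2 by norm_num] at h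
    exact h
  · obtain ⟨k, y₀, hk⟩ := Pool.Agent.X280.BP.gauss_of (W := onePoint)
      (V := fun p (c : Fin 4 → ZMod p) => Pool.Agent.X280.BP.V1 c)
      ⟨fun c p => by
        unfold onePoint Pool.Agent.X280.BP.V1 Pool.Agent.Y722.HS.red WeierstrassCurve.map
        simp⟩ Pool.Agent.X280.BP.dat1 u hε
    refine ⟨k, y₀, fun y H hy hH => ?_⟩
    have h := hk y H hy hH
    rw [Fintype.card_fin, show (1 : ℝ) + 1 / 2 = 3 / 2 by norm_num] at h
    exact h
  · obtain ⟨k, y₀, hk⟩ := Pool.Agent.X280.BP.gauss_of (W := twoPoints)
      (V := fun p (c : Fin 3 → ZMod p) => Pool.Agent.X280.BP.V2 c)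
      ⟨fun c p => by
        unfold twoPoints Pool.Agent.X280.BP.V2 Pool.Agent.Y722.HS.red WeierstrassCurve.map
        simp⟩ Pool.Agent.X280.BP.dat2 u hε
    refine ⟨k, y₀, fun y H hy hH => ?_⟩
    have h := hk y H hy hH
    rw [Fintype.card_fin, show (2 : ℝ) + 1 / 2 = 5 / 2 by norm_num] at h
    exact h

end Pool.Agent.Results.MP_8b7eba_nt.GaussianLawOfProducts
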