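import Pool.Agent.X280.BP.Nagao
import Pool.Agent.X280.BP.Final

/-!
# The limit law of the sums of Mestre and Nagao in families with marked points

For an integral Weierstrass equation `E` let `a_p = p + 1 - N_p`, where `N_p` is the number of the points
modulo `p` with the point at infinity, and

`S(y) = - (log y)⁻¹ ∑_{p ≤ y} a_p (log p) / p`

be the sum of Mestre and Nagao.  It is the standard tool in the search for curves of large rank: by the
explicit formula the conjecture of Birch and Swinnerton-Dyer predicts, for a fixed curve of rank `r_E`, that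
`S(y)` tends to `r_E - 1/2` (in the mean).

The theorem gives the limit law of `S(y)` in three families with `r = 0, 1, 2` marked rational points: if a
member is chosen at random, with integral parameters of absolute values at most `H`, and `y → ∞` and
`log H / log y → ∞`, then `S(y)` converges in law to the normal distribution with mean `r` and variance
`1/2`.

So the mean `r` is the number of the marked points (this is the averaged form of the conjecture, due to Nagao,
for one length `y` and all curves, not only fibres of one surface), but the value at a single curve has a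
fluctuation of constant size: the sum of a length `y = H^{o(1)}` is at least `r + 1` or at most `r - 1` with
probability `2 (1 - Φ(√2)) ≈ 0.157`, where `Φ` is the normal distribution function, and does not tell the
rank.

Proof.  The terms are functions of the parameters modulo `p` with mean value `r (log p) / p + O((log p)/p^{3/2})`
and variance `(log p)²/p + O((log p)²/p^{3/2})`; for the third family this uses the number of points of
conics.  The sum over the primes of `(log p)²/p` is `(log y)²/2 + O(log y)`.  The moments over the box are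
compared with those of independent variables, and Lévy's continuity theorem is applied to the triangular
system.
-/

set_option autoImplicit false

namespace Pool.Agent.Results.MP_8b7eba_nt.MestreNagaoSums

open Finset

/-- `N_p`: the number of the points of `y² + a₁ x y + a₃ y = x³ + a₂ x² + a₄ x + a₆` modulo `p`, with the
point at infinity. -/
noncomputable def numPoints (E : WeierstrassCurve ℤ) (p : ℕ) : ℕ :=
  Nat.card {q : ZMod p × ZMod p // q.2 ^ 2 + (E.a₁ : ZMod p) * q.1 * q.2 + (E.a₃ : ZMod p) * q.2 =
    q.1 ^ 3 + (E.a₂ : ZMod p) * q.1 ^ 2 + (E.a₄ : ZMod p) * q.1 + (E.a₆ : ZMod p)} + 1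

/-- The sum of Mestre and Nagao of length `y`: `S(y) = - (log y)⁻¹ ∑_{p ≤ y} (p + 1 - N_p) (log p) / p`. -/
noncomputable def nagaoSum (E : WeierstrassCurve ℤ) (y : ℕ) : ℝ :=
  -(∑ p ∈ (range (y + 1)).filter Nat.Prime, ((p : ℝ) + 1 - numPoints E p) * Real.log p / p) /
    Real.log y

/-- `y² = x³ + a x + b`, the parameters are `a, b`. -/
def noPoint (c : Fin 2 → ℤ) : WeierstrassCurve ℤ := ⟨0, 0, 0, c 0, c 1⟩

/-- `y² + a x y + b y = x³ + c x² + d x`, all integral equations with the point `(0, 0)`; the parameters
are `a, c, b, d`. -/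
def onePoint (c : Fin 4 → ℤ) : WeierstrassCurve ℤ := ⟨c 0, c 1, c 2, c 3, 0⟩

/-- `y² + (a x + b) y = x (x - 1) (x + c) = x³ + (c - 1) x² - c x` with the points `(0, 0)` and `(1, 0)`;
the parameters are `a, b, c`. -/
def twoPoints (c : Fin 3 → ℤ) : WeierstrassCurve ℤ := ⟨c 0, c 2 - 1, c 1, -c 2, 0⟩

/-- **The limit law** is normal with mean `r` and variance `1/2`: for all `u` and `ε > 0` there are `k` and
`y₀` such that for all `y ≥ y₀` and `H ≥ y ^ k`, the proportion of the integral parameters with absolute
values at most `H` for which `S(y) ≤ u` differs by at most `ε` from the probability that a normal variable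
with mean `r` and variance `1/2` is at most `u`. -/
def LimitLaw {n : ℕ} (E : (Fin n → ℤ) → WeierstrassCurve ℤ) (r : ℝ) : Prop :=
  ∀ u ε : ℝ, 0 < ε → ∃ k y₀ : ℕ, ∀ y H : ℕ, y₀ ≤ y → y ^ k ≤ H →
    |({c : Fin n → ℤ | (∀ i, |c i| ≤ H) ∧ nagaoSum (E c) y ≤ u}.ncard : ℝ) / (2 * H + 1 : ℝ) ^ n -
      (ProbabilityTheory.gaussianReal r (1 / 2)).real (Set.Iic u)| ≤ ε

theorem nag_eq (E : WeierstrassCurve ℤ) (y : ℕ) : nagaoSum E y = Pool.Agent.X280.BP.nag E y := by
  unfold nagaoSum Pool.Agent.X280.BP.nag
  rw [Finset.range_eq_Ico]
  rfl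

/-- **The limit law of the sums of Mestre and Nagao in families with zero, one and two marked points.** -/
theorem result : LimitLaw noPoint 0 ∧ LimitLaw onePoint 1 ∧ LimitLaw twoPoints 2 := by
  refine ⟨fun u ε hε => ?_, fun u ε hε => ?_, fun u ε hε => ?_⟩
  · obtain ⟨k, y₀, hk⟩ := Pool.Agent.X280.BP.nag_gauss (W := noPoint)
      (V := fun p (c : Fin 2 → ZMod p) => Pool.Agent.X280.BP.V0 c)
      ⟨fun c p => by
        unfold noPoint Pool.Agent.X280.BP.V0 Pool.Agent.Y722.HS.red WeierstrassCurve.map
        simp⟩ Pool.Agent.X280.BP.dat0 u hε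
    refine ⟨k, y₀, fun y H hy hH => ?_⟩
    have h := hk y H hy hH
    rw [Fintype.card_fin] at h
    simp only [nag_eq]
    exact h
  · obtain ⟨k, y₀, hk⟩ := Pool.Agent.X280.BP.nag_gauss (W := onePoint)
      (V := fun p (c : Fin 4 → ZMod p) => Pool.Agent.X280.BP.V1 c)
      ⟨fun c p => by
        unfold onePoint Pool.Agent.X280.BP.V1 Pool.Agent.Y722.HS.red WeierstrassCurve.map
        simp⟩ Pool.Agent.X280.BP.dat1 u hε
    refine ⟨k, y₀, fun y H hy hH => ?_⟩
    have h := hk y H hy hH
    rw [Fintype.card_fin] at h
    simp only [nag_eq]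
    exact h
  · obtain ⟨k, y₀, hk⟩ := Pool.Agent.X280.BP.nag_gauss (W := twoPoints)
      (V := fun p (c : Fin 3 → ZMod p) => Pool.Agent.X280.BP.V2 c)
      ⟨fun c p => by
        unfold twoPoints Pool.Agent.X280.BP.V2 Pool.Agent.Y722.HS.red WeierstrassCurve.map
        simp⟩ Pool.Agent.X280.BP.dat2 u hε
    refine ⟨k, y₀, fun y H hy hH => ?_⟩
    have h := hk y H hy hH
    rw [Fintype.card_fin] at h
    simp only [nag_eq]
    exact h

end Pool.Agent.Results.MP_8b7eba_nt.MestreNagaoSums
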