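import Mathlib
import Pool.Agent.X99.PA.Tw
import Pool.Agent.X99.C49.MQ

/-!
# Prime twists of an arbitrary twist of `X_0(49)` : the exact density of rank zero

`E_D : y² = x³ - 35 D² x - 98 D³` is the quadratic twist by `D` of the curve `X_0(49)`, which has
complex multiplication by the ring of integers of `ℚ(√-7)`. Let `D` be ANY odd squarefree positive
integer which is a sum of two squares; nothing is assumed about the rank or the Tate-Shafarevich group
of `E_D`. Let `S(D)` be the set of the prime factors of `D` that split in `ℚ(√-7)`, let `A(D)` be the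
symmetric matrix over `𝔽₂` with rows and columns indexed by `S(D)`, with zeros on the diagonal and the
additive quadratic residue symbols `[p' / p]` off the diagonal, and let

`δ(D) = #{diagonal matrices x : det (A(D) + x) ≠ 0} / 2^{#S(D)}`.

Let `q` run through the primes `≡ 5, 13, 17 mod 28` (the primes `1 mod 4` inert in `ℚ(√-7)`) that do not
divide `D`. For a set of these primes `q` of relative natural density exactly `δ(D)` the group
`E_{D q}(ℚ)` is finite and `Ш(E_{D q}/ℚ)` has no element of order two; for all these `q` the function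
`L(E_{D q}, s)` is entire, `L(E_{D q}, 1) ≠ 0`, the conclusion of the frozen statement `S17691` (the
weak conjecture of Birch and Swinnerton-Dyer) holds for `E_{D q}`, and `Ш(E_{D q}/ℚ)` has no element of
order `2^k`. The number `2^{#S(D)} δ(D)` is an odd integer; so `δ(D) ≥ 2^{-#S(D)}` is positive for all
`D`, and `δ(D) = 1` if no prime factor of `D` splits.

Proof. The criterion of `Pool/Agent/X99/C49` (values and descent of the teams of `Pool/Agent/Y698`,
carried over to `ℚ`): the matrix for `D q` is the matrix for `D` plus the diagonal matrix of the symbols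
`[q / p]`. The symbols are equidistributed over the classes modulo `28 D`, the primes are equidistributed
over the classes by the prime number theorem for arithmetic progressions, and modulo two the sum of
`det (A + x)` over all the diagonal matrices `x` is `1`.
-/

set_option autoImplicit false

open Finset

namespace Pool.Agent.Results.MP_8b7eba_nt.PrimeTwistsDensity

/-- `f` is entire and is for `Re s > 3/2` the `L`-function of `y² = x³ + A x + B`, in the form of the
frozen statement `S17691` -/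
def IsLFunction (A B : ℤ) (f : ℂ → ℂ) : Prop := Differentiable ℂ f ∧
  ∀ s : ℂ, (3 : ℝ) / 2 < s.re →
    HasProd
      (fun p : {p : ℕ // p.Prime ∧ ¬ ((p : ℤ) ∣ 2 * (4 * A ^ 3 + 27 * B ^ 2))} =>
        ((1 : ℂ)
          - ((((p.1 : ℤ) - (Nat.card {q : ZMod p.1 × ZMod p.1 //
                q.2 ^ 2 = q.1 ^ 3 + (A : ZMod p.1) * q.1 + (B : ZMod p.1)} : ℤ)) : ℤ) : ℂ)
              * ((p.1 : ℂ) ^ (-s))
          + (p.1 : ℂ) ^ (1 - 2 * s))⁻¹)
      (f s)

/-- the rational points of `y² = x³ + A x + B` -/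
def points (A B : ℤ) : Set (ℚ × ℚ) := {q | q.2 ^ 2 = q.1 ^ 3 + (A : ℚ) * q.1 + (B : ℚ)}

/-- the conclusion of the frozen statement `S17691` for `y² = x³ + A x + B` -/
def WeakBSD (A B : ℤ) : Prop := ∀ f : ℂ → ℂ, IsLFunction A B f → (f 1 = 0 ↔ (points A B).Infinite)

/-- coefficients of the twist `E_D : y² = x³ + a D x + b D` of `X_0(49)` -/
def a (D : ℕ) : ℤ := -35 * (D : ℤ) ^ 2

/-- coefficients of the twist `E_D : y² = x³ + a D x + b D` of `X_0(49)` -/
def b (D : ℕ) : ℤ := -98 * (D : ℤ) ^ 3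

/-- the curve `E_D` over `ℚ` -/
def E (D : ℕ) : WeierstrassCurve ℚ :=
  { a₁ := 0, a₂ := 0, a₃ := 0, a₄ := ((a D : ℤ) : ℚ), a₆ := ((b D : ℤ) : ℚ) }

/-- `E_D(ℚ)` is finite and `Ш(E_D/ℚ)` has no element of order two -/
def FiniteShaTwo (D : ℕ) : Prop := Finite (E D).toAffine.Point ∧
  ∀ x : Pool.Agent.TH841.SH.D.Sha (E D), 2 • x = 0 → x = 0

/-- the family of the `D`: the odd squarefree sums of two squares -/
def Family (D : ℕ) : Prop := Squarefree D ∧ Odd D ∧ ∃ x y : ℕ, D = x ^ 2 + y ^ 2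

/-- the primes `1 mod 4` which are inert in `ℚ(√-7)` -/
def Inert (q : ℕ) : Prop := q.Prime ∧ (q % 28 = 5 ∨ q % 28 = 13 ∨ q % 28 = 17)

open Classical in
/-- the set of the prime factors of `D` that split in `ℚ(√-7)` -/
noncomputable def S (D : ℕ) : Finset ℕ := D.primeFactors.filter fun p => IsSquare (-7 : ZMod p)

open Classical in
/-- the matrix `A(D)` plus the diagonal matrix `x` -/
noncomputable def matrix (D : ℕ) (x : S D → ZMod 2) : Matrix (S D) (S D) (ZMod 2) :=
  Matrix.of fun i j => if i = j then x i else if IsSquare (((j : ℕ)) : ZMod (i : ℕ)) then 0 else 1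

open Classical in
/-- the number of the diagonals which make the matrix nonsingular -/
noncomputable def k (D : ℕ) : ℕ :=
  ((univ : Finset (S D → ZMod 2)).filter fun x => (matrix D x).det ≠ 0).card

/-- the density -/
noncomputable def δ (D : ℕ) : ℝ := (k D : ℝ) / 2 ^ (S D).card

open Classical in
/-- the number of the primes `q ≤ X`, inert and prime to `D`, with the property `Q` -/
noncomputable def count (D : ℕ) (Q : ℕ → Prop) (X : ℕ) : ℕ :=
  ((Icc 1 X).filter fun q => (Inert q ∧ ¬ q ∣ D) ∧ Q q).card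

section proof

open Pool.Agent.X99.C49 Pool.Agent.X99.C49.KR Pool.Agent.X99.PA

lemma E_eq (D : ℕ) : E D = ES D := rfl

lemma fst_iff (D : ℕ) : FiniteShaTwo D ↔ RZ (D : ℤ) := Iff.rfl

lemma S_eq (D : ℕ) : S D = SPr D := rfl

lemma famR (D : ℕ) : FamR ∅ (fun _ => 0) D ↔ Fam D :=
  ⟨fun h => h.1, fun h => ⟨h, fun r hr => absurd hr (Finset.notMem_empty r)⟩⟩

lemma bb_iff (q : ℕ) : BB ∅ (fun _ => 0) q ↔ (q % 28 = 5 ∨ q % 28 = 13 ∨ q % 28 = 17) := by
  unfold BB
  constructor
  · rintro ⟨h, -⟩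
    have h' : q % 28 ∈ ({5, 13, 17} : Finset ℕ) := h
    simpa using h'
  · intro h
    refine ⟨?_, fun r hr => absurd hr (Finset.notMem_empty r)⟩
    show q % 28 ∈ ({5, 13, 17} : Finset ℕ)
    simpa using h

open Classical in
lemma matrix_eq (D : ℕ) (x : S D → ZMod 2) :
    matrix D x = off (S D) + Matrix.diagonal x := by
  ext i j
  unfold matrix off nq
  rw [Matrix.add_apply, Matrix.of_apply, Matrix.of_apply, Matrix.diagonal_apply]
  by_cases h : i = j
  · rw [if_pos h, if_pos h, if_pos h, zero_add]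
  · rw [if_neg h, if_neg h, if_neg h, add_zero]

lemma k_eq (D : ℕ) : k D = nd (off (S D)) := by
  classical
  unfold k nd
  refine Pool.Agent.X99.GJ.fc _ fun x _ => ?_
  rw [matrix_eq]

lemma isL_unique {A B : ℤ} {f g : ℂ → ℂ} (hf : IsLFunction A B f) (hg : IsLFunction A B g) :
    f = g := by
  have hf' : AnalyticOnNhd ℂ f Set.univ := fun z _ => hf.1.analyticAt z
  have hg' : AnalyticOnNhd ℂ g Set.univ := fun z _ => hg.1.analyticAt z
  refine hf'.eq_of_eventuallyEq hg' (z₀ := 2) ?_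
  have hmem : {s : ℂ | (3 : ℝ) / 2 < s.re} ∈ nhds (2 : ℂ) :=
    (isOpen_lt continuous_const Complex.continuous_re).mem_nhds (by
      show (3 : ℝ) / 2 < (2 : ℂ).re
      norm_num)
  filter_upwards [hmem] with s hs
  exact (hf.2 s hs).unique (hg.2 s hs)

lemma isL_of {A B : ℤ} {F : ℂ → ℂ} (h : Pool.Agent.Y19.QT.IsLFun A B F) : IsLFunction A B F := by
  refine ⟨h.1, fun s hs => ?_⟩
  have h1 := h.2 s hs
  have key : ∀ p : ℕ, ((p : ℤ) ∣ 2 * (-4 * A ^ 3 - 27 * B ^ 2) ↔
      (p : ℤ) ∣ 2 * (4 * A ^ 3 + 27 * B ^ 2)) := by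
    intro p
    have e : (2 * (-4 * A ^ 3 - 27 * B ^ 2) : ℤ) = -(2 * (4 * A ^ 3 + 27 * B ^ 2)) := by ring
    rw [e, dvd_neg]
  set g : ℕ → ℂ := fun p => ((1 : ℂ) - ((((p : ℤ) - (Nat.card {q : ZMod p × ZMod p //
      q.2 ^ 2 = q.1 ^ 3 + (A : ZMod p) * q.1 + (B : ZMod p)} : ℤ)) : ℤ) : ℂ) * ((p : ℂ) ^ (-s)) +
        (p : ℂ) ^ (1 - 2 * s))⁻¹ with hg
  set T : Set ℕ := {p | p.Prime ∧ ¬ ((p : ℤ) ∣ 2 * (4 * A ^ 3 + 27 * B ^ 2))} with hT
  have h2 : (T.mulIndicator g) = (fun p : ℕ => open Classical in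
      if p.Prime ∧ ¬ ((p : ℤ) ∣ 2 * (-4 * A ^ 3 - 27 * B ^ 2)) then
        (1 - ((p : ℂ) - (Nat.card {q : ZMod p × ZMod p //
            q.2 ^ 2 = q.1 ^ 3 + (A : ZMod p) * q.1 + (B : ZMod p)} : ℂ))
            * (p : ℂ) ^ (-s) + (p : ℂ) ^ (1 - 2 * s))⁻¹
      else 1) := by
    classical
    funext p
    by_cases hp : p ∈ T
    · rw [Set.mulIndicator_of_mem hp, if_pos ⟨hp.1, fun h => hp.2 ((key p).1 h)⟩, hg]
      push_cast
      rfl
    · rw [Set.mulIndicator_of_notMem hp, if_neg fun h => hp ⟨h.1, fun h' => h.2 ((key p).2 h')⟩]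
  have h3 : HasProd (T.mulIndicator g) (F s) := by
    rw [h2]
    exact h1
  exact (hasProd_subtype_iff_mulIndicator (f := g) (s := T)).2 h3

lemma new_prime {D q : ℕ} (hD : Fam D) (hq : Inert q) (hqD : ¬ q ∣ D) : Fam (D * q) :=
  (new_fam (R := ∅) (n := fun _ => 0) ((famR D).2 hD) hq.1 hqD ((bb_iff q).2 hq.2)).1.1

end proof

open Pool.Agent.X99.C49 Pool.Agent.X99.C49.KR Pool.Agent.X99.PA in
theorem result {D : ℕ} (hD : Family D) :
    (∀ q : ℕ, Inert q → ¬ q ∣ D → FiniteShaTwo (D * q) →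
      4 * a (D * q) ^ 3 + 27 * b (D * q) ^ 2 ≠ 0 ∧
      (∃ f : ℂ → ℂ, IsLFunction (a (D * q)) (b (D * q)) f ∧ f 1 ≠ 0) ∧
      (points (a (D * q)) (b (D * q))).Finite ∧ WeakBSD (a (D * q)) (b (D * q)) ∧
      ∀ (n : ℕ) (x : Pool.Agent.TH841.SH.D.Sha (E (D * q))), 2 ^ n • x = 0 → x = 0) ∧
    Filter.Tendsto (fun X : ℕ => (count D (fun q => FiniteShaTwo (D * q)) X : ℝ) /
      (count D (fun _ => True) X : ℝ)) Filter.atTop (nhds (δ D)) ∧
    Odd (k D) ∧ (1 / 2 : ℝ) ^ (S D).card ≤ δ D ∧ δ D ≤ 1 := by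
  have hF : Fam D := (fam_two D).1 hD
  have hodd : Odd (k D) := by
    rw [k_eq]
    exact nd_odd _
  refine ⟨fun q hq hqD hg => ?_, ?_, hodd, ?_, ?_⟩
  · have hF' := new_prime hF hq hqD
    have hgood : Pool.Agent.X99.C49.Good (D * q) := ⟨hF', hg⟩
    obtain ⟨⟨f, hf, hf0⟩, hfin⟩ := zb hgood
    have hL := isL_of hf
    have hf1 : f 1 ≠ 0 := (hf.1.analyticAt 1).analyticOrderAt_eq_zero.1 hf0
    have hpts : (points (a (D * q)) (b (D * q))).Finite := hfin
    refine ⟨neM (M := ((D * q : ℕ) : ℤ)) (sqfZ hF').ne_zero, ⟨f, hL, hf1⟩, hpts, ?_, ?_⟩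
    · intro g hg'
      rw [isL_unique hg' hL]
      exact ⟨fun h => absurd h hf1, fun h => absurd hpts h⟩
    · have hz : ∀ x : Pool.Agent.TH841.SH.D.Sha (E (D * q)), x + x = 0 → x = 0 := by
        intro x hx
        refine hg.2 x ?_
        rw [two_nsmul]
        exact hx
      have hkl := Pool.Agent.Y687.JQ.kl_zero hz
      intro n x hx
      have h1 := hkl n x hx
      rwa [pow_zero, one_smul] at h1
  · have h := prime_twists (R := ∅) (n := fun _ => 0) (fun r hr => absurd hr (Finset.notMem_empty r))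
      ((famR D).2 hF) (fun D => RZ (D : ℤ)) (fun D' hD' => by
        rw [← gd_iff ((famR D').1 hD')]
        exact crit ((famR D').1 hD'))
    unfold δ
    rw [k_eq]
    refine h.congr fun X => ?_
    unfold count
    refine congrArg₂ (fun a b : ℕ => (a : ℝ) / (b : ℝ)) ?_ ?_
    · refine Pool.Agent.X99.GJ.fc _ fun q _ => ?_
      rw [bb_iff]
      unfold Inert
      constructor
      · rintro ⟨h1, h2, h3, h4⟩
        exact ⟨⟨⟨h1, h3⟩, h2⟩, h4⟩
      · rintro ⟨⟨⟨h1, h3⟩, h2⟩, h4⟩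
        exact ⟨h1, h2, h3, h4⟩
    · refine Pool.Agent.X99.GJ.fc _ fun q _ => ?_
      rw [bb_iff, and_true]
      unfold Inert
      constructor
      · rintro ⟨h1, h2, h3⟩
        exact ⟨⟨h1, h3⟩, h2⟩
      · rintro ⟨⟨h1, h3⟩, h2⟩
        exact ⟨h1, h2, h3⟩
  · unfold δ
    rw [div_pow, one_pow]
    refine div_le_div_of_nonneg_right ?_ (by positivity)
    exact_mod_cast hodd.pos
  · unfold δ
    rw [div_le_one (by positivity), k_eq]
    have h1 := nd_le (off (S D))
    rw [Fintype.card_coe] at h1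
    exact_mod_cast h1

end Pool.Agent.Results.MP_8b7eba_nt.PrimeTwistsDensity
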