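import Pool.Agent.X280.BP.Final

/-!
# The original products of Birch and Swinnerton-Dyer in families with marked points

For an integral Weierstrass equation `E` let `P(y) = ∏_{p ≤ y, p ∤ 2Δ} N_p / p`, where `N_p` is the number
of the points modulo `p` with the point at infinity; `1 / P(y)` is the partial product of length `y` of the
Euler product of `L(E, 1)`.  Birch and Swinnerton-Dyer were led to their conjecture by these products: for a
fixed `E` they should grow like `(log y)^r`, where `r` is the rank, so that they tend to infinity if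
`E(ℚ)` is infinite and are bounded otherwise.

The theorem describes the products of almost all members of three families, uniformly in a whole range of
lengths, up to a power of the size of the coefficients:

* all curves `y² = x³ + a x + b`: `P(y) = (log y)^{1/2 + o(1)}`;
* all curves with the point `(0, 0)`, `y² + a x y + b y = x³ + c x² + d x`: `P(y) = (log y)^{3/2 + o(1)}`;
* the curves `y² + (a x + b) y = x (x - 1) (x + c)` with the points `(0, 0)`, `(1, 0)`:
  `P(y) = (log y)^{5/2 + o(1)}`.

So a marked point is seen in the products: each contributes one to the exponent, on top of the `1/2` which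
is there without any point.  More precisely, let `κ = 1/2, 3/2, 5/2`.  For every `δ > 0` there is a `C` such
that for all `H` and `Y ≥ 3` the inequalities `(log y)^{κ - δ} ≤ P(y) ≤ (log y)^{κ + δ}` hold for ALL
`Y ≤ y ≤ H^{1/11}` at the same time, for all but a proportion `C / (log log Y)²` of the integral
parameters with absolute values at most `H`.

Proof.  `log P(y)` is `κ log log y + O(1)` minus a sum over `p ≤ y` of functions of the parameters modulo
`p` with mean zero and variance `1/p + O(p^{-3/2})`: the mean of `a_p` is minus the number of the marked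
points up to `O(1/√p)` and the mean of `a_p²` is `p + O(√p)`; for the third family this uses the number of
points of conics.  Hasse's bound and the bound `|a_p| ≤ 1` for singular cubics are used for single curves.
The fourth moments of all partial sums over the box are compared with those over independent variables,
and a maximal inequality in the style of Billingsley gives all lengths at the same time.
-/

set_option autoImplicit false

namespace Pool.Agent.Results.MP_8b7eba_nt.ProductsInFamilies

open Finset

/-- `N_p`: the number of the points of `y² + a₁ x y + a₃ y = x³ + a₂ x² + a₄ x + a₆` modulo `p`, with the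
point at infinity. -/
noncomputable def numPoints (E : WeierstrassCurve ℤ) (p : ℕ) : ℕ :=
  Nat.card {q : ZMod p × ZMod p // q.2 ^ 2 + (E.a₁ : ZMod p) * q.1 * q.2 + (E.a₃ : ZMod p) * q.2 =
    q.1 ^ 3 + (E.a₂ : ZMod p) * q.1 ^ 2 + (E.a₄ : ZMod p) * q.1 + (E.a₆ : ZMod p)} + 1

/-- `p` is a prime that does not divide `2 Δ`. -/
def Good (E : WeierstrassCurve ℤ) (p : ℕ) : Prop := p.Prime ∧ ¬ (p : ℤ) ∣ 2 * E.Δ

open Classical in
/-- `P(y)`: the product of `N_p / p` over the primes `p ≤ y` which do not divide `2 Δ`. -/
noncomputable def product (E : WeierstrassCurve ℤ) (y : ℕ) : ℝ :=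
  ∏ p ∈ (range (y + 1)).filter (Good E), ((numPoints E p : ℝ) / p)

/-- `y² = x³ + a x + b`, the parameters are `a, b`. -/
def noPoint (c : Fin 2 → ℤ) : WeierstrassCurve ℤ := ⟨0, 0, 0, c 0, c 1⟩

/-- `y² + a x y + b y = x³ + c x² + d x`, all integral equations with the point `(0, 0)`; the parameters
are `a, c, b, d`. -/
def onePoint (c : Fin 4 → ℤ) : WeierstrassCurve ℤ := ⟨c 0, c 1, c 2, c 3, 0⟩

/-- `y² + (a x + b) y = x (x - 1) (x + c) = x³ + (c - 1) x² - c x` with the points `(0, 0)` and `(1, 0)`;
the parameters are `a, b, c`. -/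
def twoPoints (c : Fin 3 → ℤ) : WeierstrassCurve ℤ := ⟨c 0, c 2 - 1, c 1, -c 2, 0⟩

/-- **Typical size** `P(y) = (log y)^{κ + o(1)}`: for every `δ > 0` there is a `C` such that for all `H` and
`Y ≥ 3`, for all but `C (log log Y)⁻² (2H+1)ⁿ` of the integral parameters with absolute values at most `H`,
`(log y)^{κ - δ} ≤ P(y) ≤ (log y)^{κ + δ}` for all `y ≥ Y` with `y¹¹ ≤ H`. -/
def Typical {n : ℕ} (E : (Fin n → ℤ) → WeierstrassCurve ℤ) (κ : ℝ) : Prop :=
  ∀ δ : ℝ, 0 < δ → ∃ C : ℝ, ∀ H Y : ℕ, 3 ≤ Y →
    ({c : Fin n → ℤ | (∀ i, |c i| ≤ H) ∧ ∃ y : ℕ, Y ≤ y ∧ y ^ 11 ≤ H ∧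
      (product (E c) y < Real.log y ^ (κ - δ) ∨
        Real.log y ^ (κ + δ) < product (E c) y)}.ncard : ℝ) ≤
    C / Real.log (Real.log Y) ^ 2 * (2 * H + 1 : ℝ) ^ n

/-- **The products of Birch and Swinnerton-Dyer in families with zero, one and two marked points.** -/
theorem result :
    Typical noPoint (1 / 2) ∧ Typical onePoint (3 / 2) ∧ Typical twoPoints (5 / 2) := by
  refine ⟨fun δ hδ => ?_, fun δ hδ => ?_, fun δ hδ => ?_⟩
  · obtain ⟨K, hK⟩ := Pool.Agent.X280.BP.typical_of (W := noPoint)
      (V := fun p (c : Fin 2 → ZMod p) => Pool.Agent.X280.BP.V0 c)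
      ⟨fun c p => by
        unfold noPoint Pool.Agent.X280.BP.V0 Pool.Agent.Y722.HS.red WeierstrassCurve.map
        simp⟩ Pool.Agent.X280.BP.dat0 hδ
    refine ⟨K, fun H Y hY => ?_⟩
    have h := hK H Y hY
    rw [Fintype.card_fin, show (0 : ℝ) + 1 / 2 = 1 / 2 by norm_num] at h
    exact h
  · obtain ⟨K, hK⟩ := Pool.Agent.X280.BP.typical_of (W := onePoint)
      (V := fun p (c : Fin 4 → ZMod p) => Pool.Agent.X280.BP.V1 c)
      ⟨fun c p => by
        unfold onePoint Pool.Agent.X280.BP.V1 Pool.Agent.Y722.HS.red WeierstrassCurve.map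
        simp⟩ Pool.Agent.X280.BP.dat1 hδ
    refine ⟨K, fun H Y hY => ?_⟩
    have h := hK H Y hY
    rw [Fintype.card_fin, show (1 : ℝ) + 1 / 2 = 3 / 2 by norm_num] at h
    exact h
  · obtain ⟨K, hK⟩ := Pool.Agent.X280.BP.typical_of (W := twoPoints)
      (V := fun p (c : Fin 3 → ZMod p) => Pool.Agent.X280.BP.V2 c)
      ⟨fun c p => by
        unfold twoPoints Pool.Agent.X280.BP.V2 Pool.Agent.Y722.HS.red WeierstrassCurve.map
        simp⟩ Pool.Agent.X280.BP.dat2 hδ
    refine ⟨K, fun H Y hY => ?_⟩
    have h := hK H Y hY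
    rw [Fintype.card_fin, show (2 : ℝ) + 1 / 2 = 5 / 2 by norm_num] at h
    exact h

end Pool.Agent.Results.MP_8b7eba_nt.ProductsInFamilies
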